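import Mathlib

/-!
# DRN / Step: D-regularly nil clean elements modulo a pi-regular ideal

Explicit formulas: lifting of idempotents modulo a pi-regular ideal inside `b S b`, and the idempotent
`e + f - e f`.
-/

set_option autoImplicit false

namespace Pool.Agent.DRN

variable {S : Type*} [Ring S]

open Polynomial in
/-- an idempotent modulo a pi-regular ideal lifts to an idempotent in `b S b` -/
theorem lift (K : Ideal S) [K.IsTwoSided] (b : S) (hb : b - b * b ∈ K)
    (hK : ∃ n : ℕ, 1 ≤ n ∧ ∃ y : S, (b - b * b) ^ n * y * (b - b * b) ^ n = (b - b * b) ^ n) :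
    ∃ w : S, (b * w * b) * (b * w * b) = b * w * b ∧ b * w * b - b ∈ K := by
  obtain ⟨n, hn, y, hy⟩ := hK
  obtain ⟨m, rfl⟩ : ∃ m, n = m + 1 := ⟨n - 1, by omega⟩
  -- Bezout
  have hcop : IsCoprime ((X : ℤ[X]) ^ (m + 2)) ((1 - X) ^ (m + 1)) := by
    apply IsCoprime.pow
    exact ⟨1, 1, by ring⟩
  obtain ⟨u, v, huv⟩ := hcop
  let φ : ℤ[X] →+* S := (aeval b : ℤ[X] →ₐ[ℤ] S).toRingHom
  have hX : φ X = b := by simp [φ]
  -- the elements
  have hx : (b - b * b) ^ (m + 1) = φ ((X * (1 - X)) ^ (m + 1)) := by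
    rw [map_pow, map_mul, map_sub, map_one, hX, mul_sub, mul_one]
  set x := (b - b * b) ^ (m + 1) with hxdef
  let B := φ (X ^ (m + 2) * u)
  have hBB : B * B = B - x * φ (X * u * v) := by
    rw [hx, ← map_mul, ← map_mul, ← map_sub]
    congr 1
    have h : (1 : ℤ[X]) - X ^ (m + 2) * u = (1 - X) ^ (m + 1) * v := by
      linear_combination -huv
    calc X ^ (m + 2) * u * (X ^ (m + 2) * u) = X ^ (m + 2) * u - X ^ (m + 2) * u * (1 - X ^ (m + 2) * u) := by ring
      _ = X ^ (m + 2) * u - X ^ (m + 2) * u * ((1 - X) ^ (m + 1) * v) := by rw [h]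
      _ = _ := by rw [mul_pow]; ring
  have hxB : x * B = B * x := by
    rw [hx, ← map_mul, ← map_mul, mul_comm]
  have h0 : (1 - x * y) * x = 0 := by
    rw [sub_mul, one_mul, hy, sub_self]
  have hxK : x ∈ K := by
    rw [hxdef, pow_succ]
    exact K.mul_mem_left _ hb
  refine ⟨φ (X ^ m * u) - φ (X ^ m * (1 - X) ^ (m + 1)) * y * φ (X ^ (m + 1) * u), ?_⟩
  have he : b * (φ (X ^ m * u) - φ (X ^ m * (1 - X) ^ (m + 1)) * y * φ (X ^ (m + 1) * u)) * b =
      (1 - x * y) * B := by
    have e1 : b * φ (X ^ m * u) * b = B := by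
      have : φ X * φ (X ^ m * u) * φ X = φ (X ^ (m + 2) * u) := by
        rw [← map_mul, ← map_mul]
        congr 1; ring
      rw [hX] at this
      exact this
    have e2 : b * φ (X ^ m * (1 - X) ^ (m + 1)) = x := by
      have : φ X * φ (X ^ m * (1 - X) ^ (m + 1)) = φ ((X * (1 - X)) ^ (m + 1)) := by
        rw [← map_mul]
        congr 1; rw [mul_pow]; ring
      rw [hX] at this
      rw [this, hx]
    have e3 : φ (X ^ (m + 1) * u) * b = B := by
      have : φ (X ^ (m + 1) * u) * φ X = φ (X ^ (m + 2) * u) := by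
        rw [← map_mul]
        congr 1; ring
      rw [hX] at this
      exact this
    calc b * (φ (X ^ m * u) - φ (X ^ m * (1 - X) ^ (m + 1)) * y * φ (X ^ (m + 1) * u)) * b
        = b * φ (X ^ m * u) * b - (b * φ (X ^ m * (1 - X) ^ (m + 1))) * y * (φ (X ^ (m + 1) * u) * b) := by
          noncomm_ring
      _ = (1 - x * y) * B := by rw [e1, e2, e3, sub_mul, one_mul]
  rw [he]
  constructor
  · calc (1 - x * y) * B * ((1 - x * y) * B) = (1 - x * y) * (B * B) - (1 - x * y) * (B * x) * y * B := by
          noncomm_ring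
      _ = (1 - x * y) * (B - x * φ (X * u * v)) - (1 - x * y) * (x * B) * y * B := by rw [hBB, hxB]
      _ = (1 - x * y) * B - ((1 - x * y) * x) * φ (X * u * v) - ((1 - x * y) * x) * B * y * B := by
          noncomm_ring
      _ = (1 - x * y) * B := by rw [h0]; simp
  · -- modulo `K`
    have hB : B - b ∈ K := by
      rw [← Ideal.Quotient.eq_zero_iff_mem, map_sub, sub_eq_zero]
      set q := Ideal.Quotient.mk K
      have hq : q b * q b = q b := by
        have := Ideal.Quotient.eq_zero_iff_mem.2 hb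
        rw [map_sub, map_mul, sub_eq_zero] at this
        exact this.symm
      have e1 : q b * q B = q B := by
        have h1 : b * B = φ (X ^ (m + 1) * u) * (b * b) := by
          have h1a : φ X * φ (X ^ (m + 2) * u) = φ (X ^ (m + 1) * u) * (φ X * φ X) := by
            rw [← map_mul, ← map_mul, ← map_mul]; congr 1; ring
          rw [hX] at h1a
          exact h1a
        have h2 : B = φ (X ^ (m + 1) * u) * b := by
          have h2a : φ (X ^ (m + 2) * u) = φ (X ^ (m + 1) * u) * φ X := by
            rw [← map_mul]; congr 1; ring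
          rw [hX] at h2a
          exact h2a
        calc q b * q B = q (b * B) := (map_mul q _ _).symm
          _ = q (φ (X ^ (m + 1) * u) * (b * b)) := by rw [h1]
          _ = q (φ (X ^ (m + 1) * u)) * (q b * q b) := by rw [map_mul q, map_mul q b b]
          _ = q (φ (X ^ (m + 1) * u)) * q b := by rw [hq]
          _ = q (φ (X ^ (m + 1) * u) * b) := (map_mul q _ _).symm
          _ = q B := by rw [← h2]
      have e2 : q b * q B = q b := by
        have h3 : b * (1 - B) = φ ((1 - X) ^ m * v) * (b - b * b) := by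
          have h3a : (1 : S) - B = φ ((1 - X) ^ (m + 1) * v) := by
            have h4 : (1 : ℤ[X]) - X ^ (m + 2) * u = (1 - X) ^ (m + 1) * v := by
              linear_combination -huv
            rw [← h4, map_sub, map_one]
          have h3b : φ X * φ ((1 - X) ^ (m + 1) * v) = φ ((1 - X) ^ m * v) * (φ X - φ X * φ X) := by
            rw [← map_mul, ← map_mul, ← map_sub, ← map_mul]
            congr 1; ring
          rw [hX] at h3b
          rw [h3a]
          exact h3b
        have h4 : q (b * (1 - B)) = 0 := by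
          rw [h3]
          exact Ideal.Quotient.eq_zero_iff_mem.2 (K.mul_mem_left _ hb)
        rw [mul_sub, mul_one, map_sub, map_mul, sub_eq_zero] at h4
        exact h4.symm
      rw [← e1, e2]
    have h5 : (1 - x * y) * B - b = (B - b) - x * (y * B) := by noncomm_ring
    rw [h5]
    exact K.sub_mem hB (K.mul_mem_right _ hxK)

/-- an element with a regular power -/
theorem finish (c y : S) (N : ℕ) (hN : 2 ≤ N) (hy : c ^ N * y * c ^ N = c ^ N) :
    ∃ u : S, (c * u * c) * (c * u * c) = c * u * c ∧ IsNilpotent (c * (1 - c * u * c)) := by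
  obtain ⟨M, rfl⟩ : ∃ M, N = M + 2 := ⟨N - 2, by omega⟩
  set E := c ^ (M + 2) * y with hE
  have hEE : E * E = E := by
    rw [hE, ← mul_assoc, hy]
  have hEc : (1 - E) * c ^ (M + 2) = 0 := by rw [sub_mul, one_mul, hE, hy, sub_self]
  have h1 : c * (c * (c ^ M * y * E)) = E := by
    calc c * (c * (c ^ M * y * E)) = (c * (c * c ^ M)) * y * E := by noncomm_ring
      _ = E * E := by rw [← pow_succ', ← pow_succ', hE]
      _ = E := hEE
  have h2 : c * (1 - c * (c ^ M * y * E) * c) = (1 - E) * c := by
    calc c * (1 - c * (c ^ M * y * E) * c) = c - (c * (c * (c ^ M * y * E))) * c := by noncomm_ring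
      _ = (1 - E) * c := by rw [h1, sub_mul, one_mul]
  refine ⟨c ^ M * y * E, ?_, ?_⟩
  · calc c * (c ^ M * y * E) * c * (c * (c ^ M * y * E) * c)
        = c * (c ^ M * y * E) * (c * (c * (c ^ M * y * E))) * c := by noncomm_ring
      _ = c * (c ^ M * y * (E * E)) * c := by rw [h1]; noncomm_ring
      _ = _ := by rw [hEE]
  · rw [h2]
    have h3 : ∀ m : ℕ, (1 - E) * c ^ m * E = 0 := by
      intro m
      have hcomm : c ^ m * c ^ (M + 2) = c ^ (M + 2) * c ^ m := by rw [← pow_add, ← pow_add, add_comm]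
      have hE' : c ^ m * E = c ^ (M + 2) * (c ^ m * y) := by
        rw [hE, ← mul_assoc, hcomm, mul_assoc]
      rw [mul_assoc, hE', ← mul_assoc, hEc, zero_mul]
    have h4 : ∀ m : ℕ, ((1 - E) * c) ^ (m + 1) = (1 - E) * c ^ (m + 1) := by
      intro m
      induction m with
      | zero => simp
      | succ m ih =>
        rw [pow_succ, ih]
        calc (1 - E) * c ^ (m + 1) * ((1 - E) * c) = (1 - E) * c ^ (m + 1) * c - ((1 - E) * c ^ (m + 1) * E) * c := by
              noncomm_ring
          _ = (1 - E) * c ^ (m + 1 + 1) := by rw [h3, zero_mul, sub_zero, mul_assoc, ← pow_succ]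
    exact ⟨M + 1 + 1, by rw [h4]; exact hEc⟩

/-- the step -/
theorem step (K : Ideal S) [K.IsTwoSided]
    (hK : ∀ x ∈ K, ∃ n : ℕ, 1 ≤ n ∧ ∃ y : S, x ^ n * y * x ^ n = x ^ n) (a r : S) (j : ℕ)
    (h1 : a * r * a - (a * r * a) * (a * r * a) ∈ K) (h2 : (a * (1 - a * r * a)) ^ j ∈ K) :
    ∃ s : S, (a * s * a) * (a * s * a) = a * s * a ∧ IsNilpotent (a * (1 - a * s * a)) := by
  obtain ⟨w, hw1, hw2⟩ := lift K _ h1 (hK _ h1)
  set t := r * a * w * a * r with ht
  have he : a * r * a * w * (a * r * a) = a * t * a := by rw [ht]; noncomm_ring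
  rw [he] at hw1 hw2
  set e := a * t * a with hedef
  set c := a * (1 - e) with hc
  have hcK : c ^ (j + 2) ∈ K := by
    have h3 : c ^ j ∈ K := by
      rw [← Ideal.Quotient.eq_zero_iff_mem, map_pow]
      have h4 : Ideal.Quotient.mk K c = Ideal.Quotient.mk K (a * (1 - a * r * a)) := by
        rw [Ideal.Quotient.eq, hc]
        have : a * (1 - e) - a * (1 - a * r * a) = -(a * (e - a * r * a)) := by noncomm_ring
        rw [this]
        exact K.neg_mem (K.mul_mem_left _ hw2)
      rw [h4, ← map_pow]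
      exact Ideal.Quotient.eq_zero_iff_mem.2 h2
    rw [pow_add]
    exact K.mul_mem_right _ h3
  obtain ⟨m, hm, y, hy⟩ := hK _ hcK
  rw [← pow_mul] at hy
  obtain ⟨u, hu1, hu2⟩ := finish c y ((j + 2) * m) (by nlinarith) hy
  set f := c * u * c with hf
  have hfe : f * e = 0 := by
    have : c * e = 0 := by rw [hc, mul_assoc, sub_mul, one_mul, hw1, sub_self, mul_zero]
    rw [hf, mul_assoc, this, mul_zero]
  have hf' : f = a * ((1 - e) * u - (1 - e) * u * a * a * t) * a := by
    rw [hf, hc]
    have : a * (1 - e) * u * (a * (1 - e)) = a * ((1 - e) * u) * a - a * ((1 - e) * u) * a * e := by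
      noncomm_ring
    rw [this, hedef]
    noncomm_ring
  refine ⟨t + ((1 - e) * u - (1 - e) * u * a * a * t) -
    t * a * a * ((1 - e) * u - (1 - e) * u * a * a * t), ?_⟩
  have hg : a * (t + ((1 - e) * u - (1 - e) * u * a * a * t) -
    t * a * a * ((1 - e) * u - (1 - e) * u * a * a * t)) * a = e + f - e * f := by
    set z := (1 - e) * u - (1 - e) * u * a * a * t
    rw [hf', hedef]
    noncomm_ring
  rw [hg]
  constructor
  · calc (e + f - e * f) * (e + f - e * f) = e * e + e * f + f * e + f * f - e * e * f - e * (f * e)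
          - f * e * f - e * (f * f) + e * (f * e) * f - (e * f - e * f) + (e * f - e * f) := by
          noncomm_ring
      _ = e + f - e * f := by
          rw [hfe, hw1, hu1]; noncomm_ring
  · have : a * (1 - (e + f - e * f)) = c * (1 - f) := by rw [hc]; noncomm_ring
    rw [this]
    exact hu2

end Pool.Agent.DRN
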