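import Mathlib
import Pool.Agent.DRN.Step

/-!
# DRN / Main: the reduction of the nil-clean question

A ring that is not D-regularly nil clean has a factor ring that is not D-regularly nil clean and has
no nonzero two-sided ideal consisting of pi-regular elements.
-/

set_option autoImplicit false

namespace Pool.Agent.DRN

universe u

/-- every element is a sum of a nilpotent and an idempotent -/
def NilClean (R : Type u) [Ring R] : Prop :=
  ∀ r : R, ∃ q e : R, IsNilpotent q ∧ IsIdempotentElem e ∧ r = q + e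

/-- for every `a` there is an idempotent `e` in `a R a` with `a (1 - e)` nilpotent -/
def DRegularlyNilClean (R : Type u) [Ring R] : Prop :=
  ∀ a : R, ∃ e : R, IsIdempotentElem e ∧ (∃ x : R, e = a * x * a) ∧ IsNilpotent (a * (1 - e))

/-- some power `x ^ n` with `n ≥ 1` is von Neumann regular -/
def PiRegularElem {R : Type u} [Ring R] (x : R) : Prop :=
  ∃ n : ℕ, 1 ≤ n ∧ ∃ y : R, x ^ n * y * x ^ n = x ^ n

/-- goodness of `a` modulo an ideal -/
def Good {R : Type u} [Ring R] (a : R) (I : Ideal R) : Prop :=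
  ∃ (r : R) (j : ℕ), a * r * a - (a * r * a) * (a * r * a) ∈ I ∧ (a * (1 - a * r * a)) ^ j ∈ I

theorem good_mono {R : Type u} [Ring R] {a : R} {I J : Ideal R} (h : I ≤ J) (hI : Good a I) :
    Good a J := by
  obtain ⟨r, j, h1, h2⟩ := hI
  exact ⟨r, j, h h1, h h2⟩

/-- goodness modulo `I` in the factor ring -/
theorem good_iff {R : Type u} [Ring R] (a : R) (I : Ideal R) [I.IsTwoSided] :
    Good a I ↔ ∃ e : R ⧸ I, IsIdempotentElem e ∧
      (∃ x, e = Ideal.Quotient.mk I a * x * Ideal.Quotient.mk I a) ∧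
      IsNilpotent (Ideal.Quotient.mk I a * (1 - e)) := by
  constructor
  · rintro ⟨r, j, h1, h2⟩
    refine ⟨Ideal.Quotient.mk I (a * r * a), ?_, ⟨Ideal.Quotient.mk I r, by rw [map_mul, map_mul]⟩,
      j, ?_⟩
    · have := Ideal.Quotient.eq_zero_iff_mem.2 h1
      rw [map_sub, sub_eq_zero, map_mul _ (a * r * a)] at this
      exact this.symm
    · have := Ideal.Quotient.eq_zero_iff_mem.2 h2
      rwa [map_pow, map_mul _ a, map_sub, map_one] at this
  · rintro ⟨e, he, ⟨x, rfl⟩, j, hj⟩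
    obtain ⟨r, rfl⟩ := Ideal.Quotient.mk_surjective x
    refine ⟨r, j, ?_, ?_⟩
    · rw [← Ideal.Quotient.eq_zero_iff_mem, map_sub, map_mul _ (a * r * a), map_mul _ (a * r),
        map_mul _ a r, sub_eq_zero]
      exact he.symm
    · rw [← Ideal.Quotient.eq_zero_iff_mem, map_pow, map_mul _ a, map_sub, map_one,
        map_mul _ (a * r), map_mul _ a r]
      exact hj

/-- a maximal ideal modulo which `a` is bad -/
theorem exists_maximal {R : Type u} [Ring R] (a : R) (hbad : ¬ Good a (⊥ : Ideal R)) :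
    ∃ M : Ideal R, M.IsTwoSided ∧ ¬ Good a M ∧
      ∀ J : Ideal R, J.IsTwoSided → M < J → Good a J := by
  obtain ⟨M, -, hM⟩ := zorn_le_nonempty₀ {I : Ideal R | I.IsTwoSided ∧ ¬ Good a I} (by
    intro c hc hchain y hy
    refine ⟨sSup c, ?_, fun z hz => le_sSup hz⟩
    have hmem : ∀ x, x ∈ sSup c ↔ ∃ I ∈ c, x ∈ I := fun x =>
      Submodule.mem_sSup_of_directed ⟨y, hy⟩ hchain.directedOn
    refine ⟨⟨?_⟩, ?_⟩
    · intro x z hx
      obtain ⟨I, hI, hxI⟩ := (hmem x).1 hx
      have := (hc hI).1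
      exact (hmem _).2 ⟨I, hI, I.mul_mem_right z hxI⟩
    · rintro ⟨r, j, h1, h2⟩
      obtain ⟨I, hI, h1I⟩ := (hmem _).1 h1
      obtain ⟨J, hJ, h2J⟩ := (hmem _).1 h2
      rcases hchain.total hI hJ with h | h
      · exact (hc hJ).2 ⟨r, j, h h1I, h2J⟩
      · exact (hc hI).2 ⟨r, j, h1I, h h2J⟩) ⊥ ⟨inferInstance, hbad⟩
  refine ⟨M, hM.1.1, hM.1.2, ?_⟩
  intro J hJ hlt
  by_contra hcon
  exact absurd (hM.2 ⟨hJ, hcon⟩ hlt.le) (not_le_of_gt hlt)

/-- goodness descends through a pi-regular ideal of the factor ring -/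
theorem good_of_piRegular {R : Type u} [Ring R] (a : R) (M : Ideal R) [M.IsTwoSided]
    (K : Ideal (R ⧸ M)) [K.IsTwoSided] (hK : ∀ x ∈ K, PiRegularElem x)
    (h : Good a (K.comap (Ideal.Quotient.mk M))) : Good a M := by
  rw [good_iff]
  obtain ⟨r, j, h1, h2⟩ := h
  rw [Ideal.mem_comap] at h1 h2
  rw [map_sub, map_mul _ (a * r * a), map_mul _ (a * r), map_mul _ a r] at h1
  rw [map_pow, map_mul _ a, map_sub, map_one, map_mul _ (a * r), map_mul _ a r] at h2
  obtain ⟨s, hs1, hs2⟩ := step K hK _ _ j h1 h2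
  exact ⟨_, hs1, ⟨s, rfl⟩, hs2⟩

/-- powers with a central factor -/
theorem pow_congr {S : Type u} [Ring S] {w Y Z : S} (hw : ∀ x : S, w * x = x * w)
    (h : w * Y = w * Z) (n : ℕ) : w * Y ^ n = w * Z ^ n := by
  induction n with
  | zero => simp
  | succ n ih =>
    calc w * Y ^ (n + 1) = (w * Y ^ n) * Y := by rw [pow_succ, mul_assoc]
      _ = Z ^ n * (w * Y) := by rw [ih, hw, mul_assoc]
      _ = Z ^ n * (w * Z) := by rw [h]
      _ = w * Z ^ (n + 1) := by rw [← mul_assoc, ← hw, mul_assoc, ← pow_succ]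

/-- gluing along a central idempotent -/
theorem glue {S : Type u} [Ring S] {z : S} (hz : z * z = z) (hzc : ∀ x : S, z * x = x * z)
    (a r₀ r₁ : S) (j₀ j₁ : ℕ)
    (h₀ : (1 - z) * (a * r₀ * a - (a * r₀ * a) * (a * r₀ * a)) = 0)
    (h₁ : z * (a * r₁ * a - (a * r₁ * a) * (a * r₁ * a)) = 0)
    (k₀ : (1 - z) * (a * (1 - a * r₀ * a)) ^ j₀ = 0) (k₁ : z * (a * (1 - a * r₁ * a)) ^ j₁ = 0) :
    ∃ r : S, IsIdempotentElem (a * r * a) ∧ IsNilpotent (a * (1 - a * r * a)) := by
  have hwc : ∀ x : S, (1 - z) * x = x * (1 - z) := fun x => by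
    rw [sub_mul, mul_sub, one_mul, mul_one, hzc]
  have hzw : z * (1 - z) = 0 := by rw [mul_sub, mul_one, hz, sub_self]
  have hwz : (1 - z) * z = 0 := by rw [sub_mul, one_mul, hz, sub_self]
  have hww : (1 - z) * (1 - z) = 1 - z := by rw [mul_sub, mul_one, hwz, sub_zero]
  set r := (1 - z) * r₀ + z * r₁ with hr
  have e₀ : (1 - z) * (a * r * a) = (1 - z) * (a * r₀ * a) := by
    calc (1 - z) * (a * r * a) = a * ((1 - z) * r) * a := by
          rw [← mul_assoc, ← mul_assoc, hwc a, mul_assoc a]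
      _ = a * ((1 - z) * r₀) * a := by
          rw [hr, mul_add, ← mul_assoc, ← mul_assoc, hww, hwz, zero_mul, add_zero]
      _ = (1 - z) * (a * r₀ * a) := by
          rw [← mul_assoc a, ← hwc a, mul_assoc, mul_assoc, mul_assoc]
  have e₁ : z * (a * r * a) = z * (a * r₁ * a) := by
    calc z * (a * r * a) = a * (z * r) * a := by
          rw [← mul_assoc, ← mul_assoc, hzc a, mul_assoc a]
      _ = a * (z * r₁) * a := by
          rw [hr, mul_add, ← mul_assoc, ← mul_assoc, hz, hzw, zero_mul, zero_add]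
      _ = z * (a * r₁ * a) := by
          rw [← mul_assoc a, ← hzc a, mul_assoc, mul_assoc, mul_assoc]
  have split : ∀ x : S, x = (1 - z) * x + z * x := fun x => by
    rw [sub_mul, one_mul, sub_add_cancel]
  have g : ∀ w X X' : S, (∀ x, w * x = x * w) → w * X = w * X' →
      w * (a * (1 - X)) = w * (a * (1 - X')) ∧ w * (X - X * X) = w * (X' - X' * X') := by
    intro w X X' hw h
    have t : ∀ Y, w * (a * (1 - Y)) = a * (w - w * Y) := fun Y => by
      rw [← mul_assoc, hw a, mul_assoc, mul_sub, mul_one]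
    refine ⟨by rw [t, t, h], ?_⟩
    have e : w * X * X = X' * (w * X) := by
      calc w * X * X = w * X' * X := by rw [h]
        _ = X' * w * X := by rw [hw X']
        _ = X' * (w * X) := mul_assoc _ _ _
    calc w * (X - X * X) = w * X - (w * X) * X := by rw [mul_sub, mul_assoc]
      _ = w * X' - X' * (w * X) := by rw [e, h]
      _ = w * (X' - X' * X') := by rw [mul_sub, ← mul_assoc w X' X', hw X', mul_assoc, h]
  obtain ⟨f₀, g₀⟩ := g _ _ _ hwc e₀
  obtain ⟨f₁, g₁⟩ := g _ _ _ hzc e₁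
  refine ⟨r, ?_, j₀ + j₁, ?_⟩
  · have hX : a * r * a - (a * r * a) * (a * r * a) = 0 := by
      rw [split (a * r * a - (a * r * a) * (a * r * a)), g₀, g₁, h₀, h₁, add_zero]
    exact (sub_eq_zero.1 hX).symm
  · rw [split ((a * (1 - a * r * a)) ^ (j₀ + j₁)), pow_congr hwc f₀, pow_congr hzc f₁,
      pow_add, ← mul_assoc, k₀, zero_mul, zero_add, pow_add (a * (1 - a * r₁ * a)), ← pow_add,
      add_comm, pow_add, ← mul_assoc, k₁, zero_mul]

/-- in a nil-clean ring the Jacobson radical is nil -/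
theorem NilClean.nilpotent_of_mem_jacobson {R : Type u} [Ring R] (hR : NilClean R) {x : R}
    (hx : x ∈ Ring.jacobson R) : IsNilpotent x := by
  obtain ⟨q, e, hq, he, rfl⟩ := hR x
  obtain ⟨v, hv⟩ := hq.isUnit_one_add
  rw [← Ideal.jacobson_bot, Ideal.mem_jacobson_iff] at hx
  obtain ⟨z, hz⟩ := hx (-(↑v⁻¹ : R))
  rw [Ideal.mem_bot] at hz
  have h1 : z * ↑v⁻¹ * (1 - e) = 1 := by
    have h2 : (1 : R) - e = ↑v - (q + e) := by rw [hv]; abel
    have h3 : z * ↑v⁻¹ * (↑v - (q + e)) = 1 + (z * -(↑v⁻¹ : R) * (q + e) + z - 1) := by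
      rw [mul_sub, mul_assoc z, Units.inv_mul]
      noncomm_ring
    rw [h2, h3, hz, add_zero]
  have he0 : e = 0 := by
    have h2 : z * ↑v⁻¹ * (1 - e) * e = 0 := by
      rw [mul_assoc _ (1 - e), sub_mul, one_mul, he.eq, sub_self, mul_zero]
    rwa [h1, one_mul] at h2
  rw [he0, add_zero]
  exact hq

theorem NilClean.two_nilpotent {R : Type u} [Ring R] (hR : NilClean R) : IsNilpotent (2 : R) := by
  obtain ⟨q, e, hq, he, h2⟩ := hR 2
  have hqe : q = 2 - e := by rw [h2]; abel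
  have hu : IsUnit (q - 1) := by
    have := hq.neg.isUnit_one_add
    have h3 : q - 1 = -(1 + -q) := by abel
    rw [h3]
    exact this.neg
  have h3 : q - 1 = 1 - e := by
    have h4 : (2 : R) = 1 + 1 := one_add_one_eq_two.symm
    rw [hqe, h4]
    abel
  rw [h3] at hu
  have he0 : e = 0 := by
    have h4 : (1 - e) * e = 0 := by rw [sub_mul, one_mul, he.eq, sub_self]
    exact (hu.mul_right_eq_zero).1 h4
  rw [h2, he0, add_zero]
  exact hq

theorem NilClean.quotient {R : Type u} [Ring R] (hR : NilClean R) (M : Ideal R) [M.IsTwoSided] :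
    NilClean (R ⧸ M) := by
  intro r
  obtain ⟨r, rfl⟩ := Ideal.Quotient.mk_surjective r
  obtain ⟨q, e, hq, he, rfl⟩ := hR r
  exact ⟨_, _, hq.map (Ideal.Quotient.mk M), he.map (Ideal.Quotient.mk M), map_add _ _ _⟩

/-- the main reduction -/
theorem main {R : Type u} [Ring R] (hR : ¬ DRegularlyNilClean R) :
    ∃ (M : Ideal R) (_ : M.IsTwoSided), ¬ DRegularlyNilClean (R ⧸ M) ∧
      (∀ K : Ideal (R ⧸ M), K.IsTwoSided → (∀ x ∈ K, PiRegularElem x) → K = ⊥) ∧
      (∀ z : R ⧸ M, IsIdempotentElem z → (∀ x, z * x = x * z) → z = 0 ∨ z = 1) ∧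
      (NilClean R → NilClean (R ⧸ M) ∧ Ring.jacobson (R ⧸ M) = ⊥ ∧ (2 : R ⧸ M) = 0) := by
  unfold DRegularlyNilClean at hR
  push Not at hR
  obtain ⟨a, ha⟩ := hR
  have hbad : ¬ Good a (⊥ : Ideal R) := by
    rintro ⟨r, j, h1, h2⟩
    rw [Ideal.mem_bot] at h1 h2
    exact ha (a * r * a) (sub_eq_zero.1 h1).symm ⟨r, rfl⟩ ⟨j, h2⟩
  obtain ⟨M, hM2, hM, hmax⟩ := exists_maximal a hbad
  have hgood : ∀ K : Ideal (R ⧸ M), K.IsTwoSided → K ≠ ⊥ →
      Good a (K.comap (Ideal.Quotient.mk M)) := by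
    intro K hK2 hne
    apply hmax _ inferInstance
    refine lt_of_le_of_ne ?_ ?_
    · intro x hx
      rw [Ideal.mem_comap, Ideal.Quotient.eq_zero_iff_mem.2 hx]
      exact K.zero_mem
    · intro heq
      apply hne
      rw [eq_bot_iff]
      intro x hx
      obtain ⟨x, rfl⟩ := Ideal.Quotient.mk_surjective x
      have : x ∈ M := by
        rw [heq, Ideal.mem_comap]
        exact hx
      rw [Ideal.Quotient.eq_zero_iff_mem.2 this]
      exact Ideal.zero_mem _
  have hpi : ∀ K : Ideal (R ⧸ M), K.IsTwoSided → (∀ x ∈ K, PiRegularElem x) → K = ⊥ := by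
    intro K hK2 hK
    by_contra hne
    exact hM (good_of_piRegular a M K hK (hgood K hK2 hne))
  have hcen : ∀ z : R ⧸ M, IsIdempotentElem z → (∀ x, z * x = x * z) → z = 0 ∨ z = 1 := by
    intro z hz hzc
    by_contra hcon
    push Not at hcon
    obtain ⟨hz0, hz1⟩ := hcon
    -- the two ideals
    have key : ∀ w : R ⧸ M, w ≠ 0 → (∀ x, w * x = x * w) → ∀ v : R ⧸ M, v * w = 0 →
        ∃ (r : R ⧸ M) (j : ℕ),
          v * (Ideal.Quotient.mk M a * r * Ideal.Quotient.mk M a -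
            (Ideal.Quotient.mk M a * r * Ideal.Quotient.mk M a) *
              (Ideal.Quotient.mk M a * r * Ideal.Quotient.mk M a)) = 0 ∧
          v * (Ideal.Quotient.mk M a *
            (1 - Ideal.Quotient.mk M a * r * Ideal.Quotient.mk M a)) ^ j = 0 := by
      intro w hw hwc v hvw
      have h2 : (Ideal.span {w}).IsTwoSided := by
        refine ⟨?_⟩
        intro x y hx
        rw [Ideal.mem_span_singleton'] at hx ⊢
        obtain ⟨t, rfl⟩ := hx
        exact ⟨t * y, by rw [mul_assoc, mul_assoc, hwc]⟩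
      have hmem : ∀ x ∈ Ideal.span {w}, v * x = 0 := by
        intro x hx
        rw [Ideal.mem_span_singleton'] at hx
        obtain ⟨t, rfl⟩ := hx
        rw [← hwc, ← mul_assoc, hvw, zero_mul]
      obtain ⟨r, j, h1, h3⟩ := hgood (Ideal.span {w}) h2 (by
        rw [Ne, Ideal.span_singleton_eq_bot]
        exact hw)
      rw [Ideal.mem_comap] at h1 h3
      rw [map_sub, map_mul _ (a * r * a), map_mul _ (a * r), map_mul _ a r] at h1
      rw [map_pow, map_mul _ a, map_sub, map_one, map_mul _ (a * r), map_mul _ a r] at h3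
      exact ⟨_, j, hmem _ h1, hmem _ h3⟩
    have hwc : ∀ x : R ⧸ M, (1 - z) * x = x * (1 - z) := fun x => by
      rw [sub_mul, mul_sub, one_mul, mul_one, hzc]
    obtain ⟨r₀, j₀, h₀, k₀⟩ := key z hz0 hzc (1 - z) (by rw [sub_mul, one_mul, hz.eq, sub_self])
    obtain ⟨r₁, j₁, h₁, k₁⟩ := key (1 - z) (sub_ne_zero.2 (Ne.symm hz1)) hwc z
      (by rw [mul_sub, mul_one, hz.eq, sub_self])
    obtain ⟨r, hr1, hr2⟩ := glue hz.eq hzc _ r₀ r₁ j₀ j₁ h₀ h₁ k₀ k₁
    apply hM
    rw [good_iff]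
    exact ⟨_, hr1, ⟨r, rfl⟩, hr2⟩
  refine ⟨M, hM2, ?_, hpi, hcen, ?_⟩
  · intro hD
    apply hM
    rw [good_iff]
    exact hD _
  · intro hN
    have hNM := hN.quotient M
    refine ⟨hNM, ?_, ?_⟩
    · apply hpi _ inferInstance
      intro x hx
      obtain ⟨n, hn⟩ := hNM.nilpotent_of_mem_jacobson hx
      refine ⟨n + 1, by omega, 0, ?_⟩
      rw [pow_succ, hn]
      simp
    · obtain ⟨n, hn⟩ := hNM.two_nilpotent
      have hcomm : ∀ x : R ⧸ M, x * 2 = 2 * x := fun x => by rw [mul_two, two_mul]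
      have htwo : (Ideal.span {(2 : R ⧸ M)}).IsTwoSided := by
        refine ⟨?_⟩
        intro x z hx
        rw [Ideal.mem_span_singleton'] at hx ⊢
        obtain ⟨w, rfl⟩ := hx
        exact ⟨w * z, by rw [mul_assoc, hcomm, ← mul_assoc]⟩
      have h := hpi (Ideal.span {(2 : R ⧸ M)}) htwo (by
        intro x hx
        rw [Ideal.mem_span_singleton'] at hx
        obtain ⟨w, rfl⟩ := hx
        refine ⟨n + 1, by omega, 0, ?_⟩
        have hp : (w * 2) ^ (n + 1) = 0 := by
          rw [Commute.mul_pow (hcomm w), pow_succ (2 : R ⧸ M), hn]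
          simp
        rw [hp]
        simp)
      have h2 : (2 : R ⧸ M) ∈ Ideal.span {(2 : R ⧸ M)} := Ideal.mem_span_singleton_self _
      rw [h] at h2
      exact h2

end Pool.Agent.DRN
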