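import Mathlib
import Pool.Agent.DRN.Main

/-!
# DRN / Simple: an infinite simple module

In a nil-clean ring `Q` with zero Jacobson radical and without nonzero pi-regular ideals the
intersection of the maximal left ideals `m` with `Q / m` infinite is zero.
-/

set_option autoImplicit false

namespace Pool.Agent.DRN

universe u

variable {Q : Type u} [Ring Q]

theorem smul_pow_eq {N : Type u} [AddCommGroup N] [Module Q N] [Finite N] (n : ℕ)
    (hn : Nat.card N ≤ n) (x : Q) (v : N) : x ^ (n + n.factorial) • v = x ^ n • v := by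
  have hF : Fintype N := Fintype.ofFinite N
  obtain ⟨i, j, hij, hv⟩ := Fintype.exists_ne_map_eq_of_card_lt
    (fun i : Fin (n + 1) => x ^ (i : ℕ) • v) (by
      rw [Fintype.card_fin, ← Nat.card_eq_fintype_card]; omega)
  wlog hlt : (i : ℕ) < j generalizing i j
  · exact this j i (Ne.symm hij) hv.symm (by
      have : (i : ℕ) ≠ j := fun h => hij (Fin.ext h)
      omega)
  have hjn : (j : ℕ) ≤ n := by have := j.2; omega
  obtain ⟨p, hp⟩ : ∃ p, (j : ℕ) = i + p := ⟨j - i, by omega⟩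
  have hp1 : 1 ≤ p := by omega
  have hstep : ∀ t : ℕ, x ^ ((i : ℕ) + p * t) • v = x ^ (i : ℕ) • v := by
    intro t
    induction t with
    | zero => simp
    | succ t ih =>
      have h1 : (i : ℕ) + p * (t + 1) = p * t + j := by rw [hp]; ring
      have h2 : (i : ℕ) + p * t = p * t + i := by ring
      have hv' : x ^ (j : ℕ) • v = x ^ (i : ℕ) • v := hv.symm
      rw [h1, pow_add, mul_smul, hv', ← mul_smul, ← pow_add, ← h2, ih]
  obtain ⟨c, hc⟩ := Nat.dvd_factorial (by omega : 0 < p) (by omega : p ≤ n)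
  obtain ⟨m, hm⟩ : ∃ m, n = m + i := ⟨n - i, by omega⟩
  have h3 : n + n.factorial = m + (i + p * c) := by rw [hc]; omega
  rw [h3, pow_add, mul_smul, hstep, ← mul_smul, ← pow_add, ← hm]

/-- the two-sided ideal generated by `y` -/
def tw (y : Q) : Ideal Q := Ideal.span (Set.range fun s => y * s)

theorem mem_tw (y : Q) : y ∈ tw y := by
  have : y * 1 ∈ tw y := Ideal.subset_span ⟨1, rfl⟩
  rwa [mul_one] at this

instance (y : Q) : (tw y).IsTwoSided := by
  refine ⟨?_⟩
  intro a b ha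
  induction ha using Submodule.span_induction with
  | mem x hx =>
    obtain ⟨s, rfl⟩ := hx
    exact Ideal.subset_span ⟨s * b, by simp only; rw [mul_assoc]⟩
  | zero => rw [zero_mul]; exact Ideal.zero_mem _
  | add x z _ _ hx hz => rw [add_mul]; exact Ideal.add_mem _ hx hz
  | smul r x _ hx => rw [smul_eq_mul, mul_assoc]; exact Ideal.mul_mem_left _ _ hx

/-- elements of the ideal generated by an annihilator of all modules in question annihilate them -/
theorem tw_smul {N : Type u} [AddCommGroup N] [Module Q N] (y : Q) (hy : ∀ v : N, y • v = 0)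
    {z : Q} (hz : z ∈ tw y) (v : N) : z • v = 0 := by
  induction hz using Submodule.span_induction with
  | mem x hx =>
    obtain ⟨s, rfl⟩ := hx
    simp only
    rw [mul_smul, hy]
  | zero => rw [zero_smul]
  | add x z _ _ hx hz => rw [add_smul, hx, hz, add_zero]
  | smul r x _ hx => rw [smul_eq_mul, mul_smul, hx, smul_zero]

theorem mul_mul_eq_zero (e : Q) (I : Ideal Q) [I.IsTwoSided] (h : ∀ z ∈ I, e * z * e = 0) {a b z : Q}
    (ha : a ∈ tw e) (hb : b ∈ tw e) (hz : z ∈ I) : a * z * b = 0 := by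
  induction ha using Submodule.span_induction generalizing z with
  | mem x hx =>
    obtain ⟨s, rfl⟩ := hx
    simp only
    induction hb using Submodule.span_induction generalizing z with
    | mem x hx =>
      obtain ⟨t, rfl⟩ := hx
      simp only
      have h1 : e * s * z * (e * t) = e * (s * z) * e * t := by noncomm_ring
      rw [h1, h _ (I.mul_mem_left _ hz), zero_mul]
    | zero => rw [mul_zero]
    | add x w _ _ hx hw => rw [mul_add, hx hz, hw hz, add_zero]
    | smul r x _ hx =>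
      have h1 : e * s * z * (r • x) = e * s * (z * r) * x := by rw [smul_eq_mul]; noncomm_ring
      rw [h1, hx (I.mul_mem_right _ hz)]
  | zero => rw [zero_mul, zero_mul]
  | add x w _ _ hx hw => rw [add_mul, add_mul, hx hz, hw hz, add_zero]
  | smul r x _ hx => rw [smul_eq_mul, mul_assoc r, mul_assoc r, hx hz, mul_zero]

theorem eq_zero_of_left_inv (hJ : Ring.jacobson Q = ⊥) {z : Q}
    (h : ∀ r : Q, ∃ w : Q, w * (1 - r * z) = 1) : z = 0 := by
  have : z ∈ Ring.jacobson Q := by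
    rw [← Ideal.jacobson_bot, Ideal.mem_jacobson_iff]
    intro y
    obtain ⟨w, hw⟩ := h (-y)
    refine ⟨w, ?_⟩
    rw [Ideal.mem_bot]
    have h1 : w * y * z + w = w * (1 - -y * z) := by noncomm_ring
    rw [h1, hw, sub_self]
  rw [hJ] at this
  exact this

/-- in a nil-clean ring with zero Jacobson radical every nonzero left ideal contains a nonzero
idempotent -/
theorem exists_idem (hN : NilClean Q) (hJ : Ring.jacobson Q = ⊥) {z : Q} (hz : z ≠ 0) :
    ∃ w : Q, IsIdempotentElem (w * z) ∧ w * z ≠ 0 := by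
  by_contra hcon
  push Not at hcon
  apply hz
  apply eq_zero_of_left_inv hJ
  intro r
  obtain ⟨q, e, hq, he, hqe⟩ := hN (r * z - 1)
  obtain ⟨v, hv⟩ := hq.isUnit_one_add
  -- `a = r z = e + v`
  set a := r * z with ha
  have hav : a = e + ↑v := by rw [hv]; have : a = (a - 1) + 1 := by abel
                              rw [this, hqe]; abel
  have hf : ↑v⁻¹ * (1 - e) * ↑v = (1 + ↑v⁻¹ * (1 - a)) * a := by
    have h1 : (↑v : Q) * (↑v⁻¹ * (1 - e) * ↑v) = ↑v * ((1 + ↑v⁻¹ * (1 - a)) * a) := by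
      have h2 : (↑v : Q) * (↑v⁻¹ * (1 - e) * ↑v) = (1 - e) * ↑v := by
        rw [← mul_assoc, ← mul_assoc, Units.mul_inv, one_mul]
      have h3 : (↑v : Q) * ((1 + ↑v⁻¹ * (1 - a)) * a) = (↑v + (1 - a)) * a := by
        rw [← mul_assoc (↑v : Q) _ a, mul_add, mul_one, ← mul_assoc (↑v : Q) (↑v⁻¹ : Q),
          Units.mul_inv, one_mul]
      rw [h2, h3, hav]
      have h4 : (↑v + (1 - (e + ↑v))) * (e + ↑v) = (1 - e) * ↑v + (e - e * e) := by noncomm_ring
      rw [h4, he.eq, sub_self, add_zero]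
    exact v.isUnit.mul_left_cancel h1
  have hid : IsIdempotentElem (↑v⁻¹ * (1 - e) * ↑v : Q) := by
    have h1 : (1 - e) * (1 - e) = 1 - e := he.one_sub.eq
    calc (↑v⁻¹ * (1 - e) * ↑v : Q) * (↑v⁻¹ * (1 - e) * ↑v)
        = ↑v⁻¹ * (1 - e) * (↑v * ↑v⁻¹) * (1 - e) * ↑v := by noncomm_ring
      _ = ↑v⁻¹ * ((1 - e) * (1 - e)) * ↑v := by rw [Units.mul_inv]; noncomm_ring
      _ = ↑v⁻¹ * (1 - e) * ↑v := by rw [h1]
  have hw := hcon ((1 + ↑v⁻¹ * (1 - a)) * r) (by
    rw [mul_assoc, ← ha, ← hf]; exact hid)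
  rw [mul_assoc, ← ha] at hw
  refine ⟨1 - ↑v⁻¹ * a, ?_⟩
  have h5 : (1 - ↑v⁻¹ * a) * (1 - a) = 1 - (1 + ↑v⁻¹ * (1 - a)) * a := by noncomm_ring
  rw [h5, hw, sub_zero]

/-- the step of the construction -/
theorem exists_sub (hN : NilClean Q) (hJ : Ring.jacobson Q = ⊥)
    (hpi : ∀ K : Ideal Q, K.IsTwoSided → (∀ x ∈ K, PiRegularElem x) → K = ⊥) (n : ℕ) (e : Q)
    (he : IsIdempotentElem e) (he0 : e ≠ 0) :
    ∃ f : Q, IsIdempotentElem f ∧ f ≠ 0 ∧ e * f = f ∧ f * e = f ∧
      ∀ (N : Type u) [AddCommGroup N] [Module Q N] [Finite N], Nat.card N ≤ n →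
        ∀ v : N, f • v = 0 := by
  -- an element `x` of `Q e Q` whose powers are not periodic with the uniform exponents
  have hx : ∃ x ∈ tw e, x ^ ((n + 1) + (n + 1).factorial) - x ^ (n + 1) ≠ 0 := by
    by_contra hcon
    push Not at hcon
    have h1 := hpi (tw e) inferInstance (fun x hx => by
      refine ⟨n + 1, by omega, x ^ ((n + 1).factorial - (n + 1)), ?_⟩
      have h2 := Nat.self_le_factorial (n + 1)
      rw [← pow_add, ← pow_add]
      have h3 : n + 1 + ((n + 1).factorial - (n + 1)) + (n + 1) =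
          (n + 1) + (n + 1).factorial := by omega
      rw [h3]
      exact sub_eq_zero.1 (hcon x hx))
    apply he0
    have h2 := mem_tw e
    rw [h1] at h2
    exact h2
  obtain ⟨x, hxe, hy0⟩ := hx
  set y := x ^ ((n + 1) + (n + 1).factorial) - x ^ (n + 1) with hy
  have hye : y ∈ tw e := by
    rw [hy]
    refine (tw e).sub_mem ?_ ?_
    · rw [show (n + 1) + (n + 1).factorial = (n + (n + 1).factorial) + 1 by ring, pow_succ]
      exact (tw e).mul_mem_left _ hxe
    · rw [pow_succ]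
      exact (tw e).mul_mem_left _ hxe
  have hkill : ∀ (N : Type u) [AddCommGroup N] [Module Q N] [Finite N], Nat.card N ≤ n →
      ∀ z ∈ tw y, ∀ v : N, z • v = 0 := by
    intro N _ _ _ hc z hz v
    refine tw_smul y (fun v => ?_) hz v
    rw [hy, sub_smul, smul_pow_eq (n + 1) (by omega), sub_self]
  -- `e K' e ≠ 0`
  have hz : ∃ z ∈ tw y, e * z * e ≠ 0 := by
    by_contra hcon
    push Not at hcon
    apply hy0
    apply eq_zero_of_left_inv hJ
    intro r
    have h1 : y * (r * y * r) * y = 0 :=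
      mul_mul_eq_zero e (tw y) hcon hye hye
        ((tw y).mul_mem_right _ ((tw y).mul_mem_left _ (mem_tw y)))
    have h2 : (r * y) ^ 3 = 0 := by
      have : (r * y) ^ 3 = r * (y * (r * y * r) * y) := by noncomm_ring
      rw [this, h1, mul_zero]
    have h3 : IsUnit (1 - r * y) := by
      have h4 : IsNilpotent (-(r * y)) := IsNilpotent.neg ⟨3, h2⟩
      have := h4.isUnit_one_add
      rwa [← sub_eq_add_neg] at this
    obtain ⟨u, hu⟩ := h3
    exact ⟨↑u⁻¹, by rw [← hu, Units.inv_mul]⟩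
  obtain ⟨z, hzy, hz0⟩ := hz
  obtain ⟨w, hw, hw0⟩ := exists_idem hN hJ hz0
  set f := w * (e * z * e) with hf
  have hfe : f * e = f := by
    rw [hf]
    have : w * (e * z * e) * e = w * (e * z * (e * e)) := by noncomm_ring
    rw [this, he.eq]
  have hfy : f ∈ tw y := by
    rw [hf]
    exact (tw y).mul_mem_left _ ((tw y).mul_mem_right _ ((tw y).mul_mem_left _ hzy))
  refine ⟨e * f, ?_, ?_, ?_, ?_, ?_⟩
  · unfold IsIdempotentElem
    calc e * f * (e * f) = e * (f * e) * f := by noncomm_ring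
      _ = e * (f * f) := by rw [hfe, mul_assoc]
      _ = e * f := by rw [hw.eq]
  · intro h0
    apply hw0
    have h1 : f * (e * f) = f := by rw [← mul_assoc, hfe, hw.eq]
    rw [← h1, h0, mul_zero]
  · rw [← mul_assoc, he.eq]
  · rw [mul_assoc, hfe]
  · intro N _ _ _ hc v
    exact hkill N hc _ ((tw y).mul_mem_left _ hfy) v

/-- an infinite simple module which is not annihilated by `x` -/
theorem exists_infinite (hN : NilClean Q) (hJ : Ring.jacobson Q = ⊥)
    (hpi : ∀ K : Ideal Q, K.IsTwoSided → (∀ x ∈ K, PiRegularElem x) → K = ⊥) (x : Q)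
    (hx : x ≠ 0) :
    ∃ m : Ideal Q, m.IsMaximal ∧ Infinite (Q ⧸ m) ∧ x ∉ m := by
  obtain ⟨w, hw, hw0⟩ := exists_idem hN hJ hx
  choose! g hg using fun (n : ℕ) (e : Q) (he : IsIdempotentElem e ∧ e ≠ 0) =>
    exists_sub hN hJ hpi n e he.1 he.2
  let E : ℕ → Q := fun n => Nat.rec (w * x) (fun n e => g n e) n
  have hE0 : E 0 = w * x := rfl
  have hES : ∀ n, E (n + 1) = g n (E n) := fun n => rfl
  have hE : ∀ n, IsIdempotentElem (E n) ∧ E n ≠ 0 := by
    intro n
    induction n with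
    | zero => rw [hE0]; exact ⟨hw, hw0⟩
    | succ n ih => rw [hES]; exact ⟨(hg n _ ih).1, (hg n _ ih).2.1⟩
  have hle : ∀ n, (1 - E n) * (1 - E (n + 1)) = 1 - E n := by
    intro n
    have h1 := (hg n _ (hE n)).2.2.1
    rw [← hES] at h1
    have : (1 - E n) * (1 - E (n + 1)) = 1 - E n - E (n + 1) + E n * E (n + 1) := by noncomm_ring
    rw [this, h1]
    abel
  have hmono : Monotone fun n => Ideal.span {1 - E n} := by
    refine monotone_nat_of_le_succ fun n => ?_
    rw [Ideal.span_singleton_le_iff_mem, Ideal.mem_span_singleton']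
    exact ⟨1 - E n, hle n⟩
  have hL : (⨆ n, Ideal.span {1 - E n}) ≠ ⊤ := by
    intro htop
    have h1 : (1 : Q) ∈ ⨆ n, Ideal.span {1 - E n} := by rw [htop]; trivial
    obtain ⟨n, hn⟩ := (Submodule.mem_iSup_of_directed _ hmono.directed_le).1 h1
    rw [Ideal.mem_span_singleton'] at hn
    obtain ⟨a, ha⟩ := hn
    apply (hE n).2
    calc E n = a * (1 - E n) * E n := by rw [ha, one_mul]
      _ = a * (E n - E n * E n) := by noncomm_ring
      _ = 0 := by rw [(hE n).1.eq, sub_self, mul_zero]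
  obtain ⟨m, hm, hLm⟩ := Ideal.exists_le_maximal _ hL
  refine ⟨m, hm, ?_, ?_⟩
  swap
  · intro hxm
    apply hm.ne_top
    rw [Ideal.eq_top_iff_one]
    have h2 : 1 - E 0 ∈ m :=
      hLm (Submodule.mem_iSup_of_mem 0 (Ideal.mem_span_singleton_self _))
    have h3 := m.add_mem h2 (m.mul_mem_left w hxm)
    rwa [hE0, sub_add_cancel] at h3
  by_contra hfin
  rw [not_infinite_iff_finite] at hfin
  have hEn : E (Nat.card (Q ⧸ m) + 1) ∈ m := by
    have h1 := (hg (Nat.card (Q ⧸ m)) (E (Nat.card (Q ⧸ m))) (hE (Nat.card (Q ⧸ m)))).2.2.2.2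
      (Q ⧸ m) le_rfl (Submodule.Quotient.mk 1)
    rw [← hES, ← Submodule.Quotient.mk_smul, smul_eq_mul, mul_one,
      Submodule.Quotient.mk_eq_zero] at h1
    exact h1
  apply hm.ne_top
  rw [Ideal.eq_top_iff_one]
  have h2 : 1 - E (Nat.card (Q ⧸ m) + 1) ∈ m :=
    hLm (Submodule.mem_iSup_of_mem (Nat.card (Q ⧸ m) + 1) (Ideal.mem_span_singleton_self _))
  have h3 := m.add_mem h2 hEn
  rwa [sub_add_cancel] at h3

/-- the main reduction -/
theorem main' {R : Type u} [Ring R] (hR : ¬ DRegularlyNilClean R) :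
    ∃ (M : Ideal R) (_ : M.IsTwoSided), ¬ DRegularlyNilClean (R ⧸ M) ∧
      (∀ K : Ideal (R ⧸ M), K.IsTwoSided → (∀ x ∈ K, PiRegularElem x) → K = ⊥) ∧
      (∀ z : R ⧸ M, IsIdempotentElem z → (∀ x, z * x = x * z) → z = 0 ∨ z = 1) ∧
      (NilClean R → NilClean (R ⧸ M) ∧ (2 : R ⧸ M) = 0 ∧
        ∀ x : R ⧸ M, x ≠ 0 →
          ∃ m : Ideal (R ⧸ M), m.IsMaximal ∧ Infinite ((R ⧸ M) ⧸ m) ∧ x ∉ m) := by
  obtain ⟨M, hM, h1, h2, h3, h4⟩ := main hR
  refine ⟨M, hM, h1, h2, h3, fun h => ?_⟩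
  obtain ⟨h5, h6, h7⟩ := h4 h
  exact ⟨h5, h7, fun x hx => exists_infinite h5 h6 h2 x hx⟩

end Pool.Agent.DRN
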