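import Mathlib
import Pool.Agent.DRN.Simple

/-!
# DRN / Countable: a countable subring

A nil-clean ring which is not D-regularly nil clean has a countable subring with the same two
properties.
-/

set_option autoImplicit false

namespace Pool.Agent.DRN

universe u

/-- terms in one element, the ring operations and two unary functions -/
inductive Tm : Type
  | a : Tm
  | zero : Tm
  | one : Tm
  | add : Tm → Tm → Tm
  | neg : Tm → Tm
  | mul : Tm → Tm → Tm
  | q : Tm → Tm
  | e : Tm → Tm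
  deriving Countable

variable {R : Type u} [Ring R]

/-- the value of a term -/
def Tm.ev (a : R) (q e : R → R) : Tm → R
  | .a => a
  | .zero => 0
  | .one => 1
  | .add s t => s.ev a q e + t.ev a q e
  | .neg s => - s.ev a q e
  | .mul s t => s.ev a q e * t.ev a q e
  | .q s => q (s.ev a q e)
  | .e s => e (s.ev a q e)

/-- the subring of the values of the terms -/
def Tm.sub (a : R) (q e : R → R) : Subring R where
  carrier := Set.range (Tm.ev a q e)
  mul_mem' := by
    rintro _ _ ⟨s, rfl⟩ ⟨t, rfl⟩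
    exact ⟨.mul s t, rfl⟩
  one_mem' := ⟨.one, rfl⟩
  add_mem' := by
    rintro _ _ ⟨s, rfl⟩ ⟨t, rfl⟩
    exact ⟨.add s t, rfl⟩
  zero_mem' := ⟨.zero, rfl⟩
  neg_mem' := by
    rintro _ ⟨s, rfl⟩
    exact ⟨.neg s, rfl⟩

/-- a countable counterexample inside a counterexample -/
theorem exists_countable (hN : NilClean R) (hR : ¬ DRegularlyNilClean R) :
    ∃ S : Subring R, Countable S ∧ NilClean S ∧ ¬ DRegularlyNilClean S := by
  choose q e hq he hqe using hN
  unfold DRegularlyNilClean at hR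
  push Not at hR
  obtain ⟨a, ha⟩ := hR
  refine ⟨Tm.sub a q e, (Set.countable_range (Tm.ev a q e)).to_subtype, ?_, ?_⟩
  · rintro ⟨_, ⟨s, rfl⟩⟩
    refine ⟨⟨q (s.ev a q e), ⟨.q s, rfl⟩⟩, ⟨e (s.ev a q e), ⟨.e s, rfl⟩⟩, ?_, ?_, ?_⟩
    · obtain ⟨n, hn⟩ := hq (s.ev a q e)
      exact ⟨n, Subtype.ext hn⟩
    · exact Subtype.ext (he (s.ev a q e))
    · exact Subtype.ext (hqe (s.ev a q e))
  · intro hS
    obtain ⟨f, hf, ⟨x, hx⟩, ⟨n, hn⟩⟩ := hS ⟨a, ⟨.a, rfl⟩⟩
    refine ha f (congrArg Subtype.val hf) ⟨x, congrArg Subtype.val hx⟩ ⟨n, ?_⟩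
    exact congrArg Subtype.val hn

end Pool.Agent.DRN
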